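import Mathlib
import Pool.Agent.H208.SLP.Even
import Pool.Agent.H208.SLP.Assemble
import Pool.Agent.H208.SLP.NineThree

set_option autoImplicit false

universe u

namespace Pool.Agent.Results.MP_7753cf_ag.Parity

open Pool.Agent.H208.SLP

/-- Let `K` be a field of characteristic zero.
(1) For every even `n ≥ 2` and every odd `d ≥ 3`, `A(n,d)` fails the strong Lefschetz property.
(2) `A(2,d)` has the strong Lefschetz property if and only if `d = 1` or `d` is even.
(3) `A(9,3)` fails the strong Lefschetz property. -/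
theorem result (K : Type u) [Field K] [CharZero K] :
    (∀ n d : ℕ, Even n → 2 ≤ n → Odd d → 3 ≤ d → ¬ HasSLP K n d) ∧
    (∀ d : ℕ, 1 ≤ d → (HasSLP K 2 d ↔ d = 1 ∨ Even d)) ∧
    ¬ HasSLP K 9 3 := by
  have h1 : ∀ n d : ℕ, Even n → 2 ≤ n → Odd d → 3 ≤ d → ¬ HasSLP K n d := by
    intro n d hn hn2 hd hd3
    obtain ⟨m, rfl⟩ := hn
    exact not_slp K (by omega) hd hd3
  refine ⟨h1, fun d hd => ⟨fun h => ?_, ?_⟩, not_slp_nine_three K⟩
  · by_contra hcon
    push Not at hcon
    obtain ⟨hd1, hodd⟩ := hcon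
    rw [Nat.not_even_iff_odd] at hodd
    obtain ⟨r, hr⟩ := hodd
    exact h1 2 d (by decide) le_rfl ⟨r, hr⟩ (by omega) h
  · rintro (rfl | he)
    · exact slp_one K 2
    · obtain ⟨m, hm⟩ := he
      have e : d = 2 * m := by omega
      rw [e]
      exact slp_two_even (by omega)

end Pool.Agent.Results.MP_7753cf_ag.Parity
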